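import Pool.Agent.Helper93.WP.St

/-!
# Module BND of project WP (MP_90c2d5_nt, owner helper93)

The number of zeros of a difference polynomial is at most `132 p^(2/3)`.
-/

set_option autoImplicit false

namespace Pool.Agent.Helper63.WP

open Polynomial Pool.Agent.Helper93.WP

theorem natDegree_aux_le {k : Type*} [Field k] (p : ℕ) (D : k[X]) (hD : D.natDegree ≤ p - 1)
    (a b c : ℕ) (lam : ℕ → ℕ → ℕ → k) :
    (aux p D a b c lam).natDegree ≤ (a - 1) + (b - 1) * (p - 1) + p * (c - 1) := by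
  unfold aux
  refine natDegree_sum_le_of_forall_le _ _ ?_
  intro i hi
  refine natDegree_sum_le_of_forall_le _ _ ?_
  intro j hj
  refine natDegree_sum_le_of_forall_le _ _ ?_
  intro l hl
  rw [Finset.mem_range] at hi hj hl
  have h1 : (C (lam i j l) * X ^ i * D ^ j * X ^ (p * l)).natDegree
      ≤ (0 + i + j * (p - 1)) + p * l := by
    refine natDegree_mul_le_of_le (natDegree_mul_le_of_le (natDegree_mul_le_of_le ?_ ?_) ?_) ?_
    · exact (natDegree_C _).le
    · exact natDegree_X_pow_le _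
    · exact natDegree_pow_le_of_le _ hD
    · exact natDegree_X_pow_le _
  have h2 : j * (p - 1) ≤ (b - 1) * (p - 1) := Nat.mul_le_mul_right _ (by omega)
  have h3 : p * l ≤ p * (c - 1) := Nat.mul_le_mul_left _ (by omega)
  omega

theorem isD_map {k K : Type*} [Field k] [Field K] (f : k →+* K) (p : ℕ) (n h : k) (D : k[X])
    (hD : IsD p n h D) : IsD p (f n) (f h) (D.map f) := by
  have h4 : f 4 = 4 := map_ofNat f 4
  unfold IsD at hD ⊢
  rw [derivative_map, hD]
  simp [del, delh, h4]

theorem del_map {k K : Type*} [Field k] [Field K] (f : k →+* K) (n : k) :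
    (del n).map f = del (f n) := by
  have h4 : f 4 = 4 := map_ofNat f 4
  simp [del, h4]

theorem delh_map {k K : Type*} [Field k] [Field K] (f : k →+* K) (n h : k) :
    (delh n h).map f = delh (f n) (f h) := by
  have h4 : f 4 = 4 := map_ofNat f 4
  simp [delh, h4]

/-- one class of zeros -/
theorem class_card (hNV : StNV) (hLIN : StLIN) (p : ℕ) [Fact p.Prime] (hp2 : p ≠ 2)
    (n h : ZMod p) (D : (ZMod p)[X]) (hn : n ≠ 0) (hh : h ≠ 0) (hdeg : D.natDegree ≤ p - 1)
    (hD : IsD p n h D) (b : ℕ) (hb : 2 ≤ b) (hb1 : 16 * b ^ 3 ≤ p + 1) (s1 s2 : ZMod p)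
    (S : Finset (ZMod p))
    (hS : ∀ t ∈ S, D.eval t = 0 ∧ (del n ^ ((p - 1) / 2)).eval t = s1 ∧
      (delh n h ^ ((p - 1) / 2)).eval t = s2 ∧ (del n * delh n h).eval t ≠ 0) :
    b * S.card ≤ 8 * p := by
  classical
  have hp : p.Prime := Fact.out
  set K := AlgebraicClosure (ZMod p) with hK
  have : CharP K p := inferInstance
  set f : ZMod p →+* K := algebraMap (ZMod p) K with hf
  have hinj : Function.Injective f := f.injective
  set a := 2 * b ^ 2 + b + 1 with ha
  set M := b ^ 2 / 2 with hM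
  have h2M : 2 * M ≤ b ^ 2 := by omega
  have h2M' : b ^ 2 ≤ 2 * M + 1 := by omega
  have hb2 : 4 ≤ b ^ 2 := by nlinarith
  have hb2b : 2 * b ≤ b ^ 2 := by nlinarith
  have hb3 : b ^ 3 = b * b ^ 2 := by ring
  have hb23 : 2 * b ^ 2 ≤ b ^ 3 := by rw [hb3]; exact Nat.mul_le_mul_right _ hb
  have hMp : M ≤ p := by omega
  have hab : 4 * a * b ≤ p + 1 := by
    have : 4 * a * b ≤ 16 * b ^ 3 := by
      have h1 : a ≤ 4 * b ^ 2 := by omega
      calc 4 * a * b ≤ 4 * (4 * b ^ 2) * b := by gcongr
        _ = 16 * b ^ 3 := by ring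
    omega
  have hlin : M * (a + b + 4 * M) < a * b * b := by
    have h1 : 2 * (M * (a + b + 4 * M)) ≤ b ^ 2 * (a + b + 2 * b ^ 2) := by
      calc 2 * (M * (a + b + 4 * M)) = (2 * M) * (a + b + 2 * (2 * M)) := by ring
        _ ≤ b ^ 2 * (a + b + 2 * b ^ 2) := by gcongr
    have h2 : b ^ 2 * (a + b + 2 * b ^ 2) < b ^ 2 * (2 * a) := by
      apply Nat.mul_lt_mul_of_pos_left _ (by omega)
      omega
    have h3 : b ^ 2 * (2 * a) = 2 * (a * b * b) := by ring
    omega
  obtain ⟨lam, hlam, hdiv⟩ := hLIN K p hp2 (f n) (f h) (f s1) (f s2) (D.map f) a b b M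
    (isD_map f p n h D hD) hMp hlin
  have hne : aux p (D.map f) a b b lam ≠ 0 :=
    hNV K p hp2 (f n) (f h) (D.map f) a b b lam (by simpa using hn) (by simpa using hh)
      (isD_map f p n h D hD) (by omega) (by omega) hab hlam
  have heval : ∀ (q : (ZMod p)[X]) (t : ZMod p), (q.map f).eval (f t) = f (q.eval t) := by
    intro q t
    rw [eval_map, eval₂_at_apply]
  have hd : ∀ t ∈ S, (X - C (f t)) ^ M ∣ aux p (D.map f) a b b lam := by
    intro t ht
    obtain ⟨h1, h2, h3, h4⟩ := hS t ht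
    refine hdiv (f t) ?_ ?_ ?_ ?_ ?_
    · rw [heval, h1, map_zero]
    · rw [← del_map, ← Polynomial.map_pow, heval, h2]
    · rw [← delh_map, ← Polynomial.map_pow, heval, h3]
    · rw [← map_pow, ZMod.pow_card]
    · rw [← del_map, ← delh_map, ← Polynomial.map_mul, heval]
      intro h0
      exact h4 (by simpa using h0)
  have hprod : ∏ t ∈ S, (X - C (f t)) ^ M ∣ aux p (D.map f) a b b lam := by
    refine Finset.prod_dvd_of_coprime ?_ hd
    intro s _ t _ hst
    exact (pairwise_coprime_X_sub_C hinj hst).pow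
  have hcard : (∏ t ∈ S, (X - C (f t)) ^ M).natDegree = S.card * M := by
    rw [natDegree_prod_of_monic _ _ (fun t _ => (monic_X_sub_C _).pow M)]
    simp [natDegree_pow]
  have h5 : S.card * M ≤ (a - 1) + (b - 1) * (p - 1) + p * (b - 1) := by
    rw [← hcard]
    refine (natDegree_le_of_dvd hprod hne).trans (natDegree_aux_le p _ ?_ a b b lam)
    exact natDegree_map_le.trans hdeg
  have h6 : (a - 1) + (b - 1) * (p - 1) + p * (b - 1) ≤ 2 * b * p := by
    obtain ⟨b', rfl⟩ : ∃ b', b = b' + 1 := ⟨b - 1, by omega⟩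
    obtain ⟨p', rfl⟩ : ∃ p', p = p' + 1 := ⟨p - 1, by omega⟩
    have e1 : b' + 1 - 1 = b' := by omega
    have e2 : p' + 1 - 1 = p' := by omega
    rw [e1, e2]
    have e3 : a - 1 ≤ p' + 1 + (p' + 1) := by omega
    calc a - 1 + b' * p' + (p' + 1) * b' ≤ (p' + 1 + (p' + 1)) + b' * (p' + 1) + (p' + 1) * b' := by
          gcongr; omega
      _ = 2 * (b' + 1) * (p' + 1) := by ring
  have h7 : b ^ 2 ≤ 4 * M := by omega
  have h8 : b * (b * S.card) ≤ b * (8 * p) := by
    calc b * (b * S.card) = b ^ 2 * S.card := by ring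
      _ ≤ 4 * M * S.card := by gcongr
      _ = 4 * (S.card * M) := by ring
      _ ≤ 4 * (2 * b * p) := Nat.mul_le_mul_left _ (h5.trans h6)
      _ = b * (8 * p) := by ring
  exact Nat.le_of_mul_le_mul_left h8 (by omega)

theorem bad_card (p : ℕ) [Fact p.Prime] (n h : ZMod p) (S : Finset (ZMod p))
    (hS : ∀ t ∈ S, (del n * delh n h).eval t = 0) : S.card ≤ 4 := by
  classical
  have hm1 : (del n).Monic := by
    unfold del
    exact monic_X_pow_sub_C _ (by norm_num)
  have hd1 : (del n).natDegree = 2 := by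
    unfold del
    exact natDegree_X_pow_sub_C
  have hm2 : (delh n h).Monic := by
    have : delh n h = (del n).comp (X + C h) := by simp [del, delh]
    rw [this]
    exact hm1.comp_X_add_C h
  have hd2 : (delh n h).natDegree = 2 := by
    have : delh n h = (del n).comp (X + C h) := by simp [del, delh]
    rw [this, natDegree_comp, natDegree_X_add_C, hd1]
  have hne : del n * delh n h ≠ 0 := (hm1.mul hm2).ne_zero
  have h1 : S ⊆ (del n * delh n h).roots.toFinset := by
    intro t ht
    rw [Multiset.mem_toFinset, mem_roots hne]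
    exact hS t ht
  calc S.card ≤ (del n * delh n h).roots.toFinset.card := Finset.card_le_card h1
    _ ≤ Multiset.card (del n * delh n h).roots := Multiset.toFinset_card_le _
    _ ≤ (del n * delh n h).natDegree := card_roots' _
    _ = 4 := by rw [hm1.natDegree_mul hm2, hd1, hd2]

theorem hBND (hNV : StNV) (hLIN : StLIN) : StBND := by
  classical
  refine ⟨132, by norm_num, ?_⟩
  intro p hpf hp2 n h D hn hh hdeg hD
  have hp : p.Prime := hpf.out
  have hp3 : 3 ≤ p := by have := hp.two_le; omega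
  have hodd : p % 2 = 1 := by
    rcases hp.eq_two_or_odd with h | h
    · exact absurd h hp2
    · exact h
  set x : ℝ := (p : ℝ) ^ ((1 : ℝ) / 3) with hx
  have hp0 : (0 : ℝ) ≤ p := by positivity
  have hx3 : x ^ 3 = p := by
    rw [hx, ← Real.rpow_natCast, ← Real.rpow_mul hp0]
    norm_num
  have hx2 : (p : ℝ) ^ ((2 : ℝ) / 3) = x ^ 2 := by
    rw [hx, ← Real.rpow_natCast, ← Real.rpow_mul hp0]
    norm_num
  have hx0 : 0 ≤ x := by positivity
  have hx1 : 1 ≤ x := Real.one_le_rpow (by exact_mod_cast (by omega : 1 ≤ p)) (by norm_num)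
  rw [hx2]
  set Z : Finset (ZMod p) := Finset.univ.filter (fun t => D.eval t = 0) with hZ
  have hZn : {t : ZMod p | D.eval t = 0}.ncard = Z.card := by
    rw [← Set.ncard_coe_finset]
    congr 1
    ext t
    simp [hZ]
  rw [hZn]
  have hZp : Z.card ≤ p := by
    calc Z.card ≤ Fintype.card (ZMod p) := Finset.card_le_univ _
      _ = p := ZMod.card p
  -- choice of b
  set b := Nat.findGreatest (fun b => 16 * b ^ 3 ≤ p + 1) p with hb
  have hb1 : 16 * b ^ 3 ≤ p + 1 :=
    Nat.findGreatest_spec (P := fun b => 16 * b ^ 3 ≤ p + 1) (m := 0) (Nat.zero_le _) (by simp)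
  have hb2 : p + 1 < 16 * (b + 1) ^ 3 := by
    by_contra hcon
    push Not at hcon
    have h1 : b + 1 ≤ p := by
      have : b + 1 ≤ (b + 1) ^ 3 := Nat.le_self_pow (by norm_num) _
      omega
    have h2 := Nat.le_findGreatest (P := fun b => 16 * b ^ 3 ≤ p + 1) h1 hcon
    rw [← hb] at h2
    omega
  by_cases hbs : b < 2
  · have h1 : p < 127 := by
      have : (b + 1) ^ 3 ≤ 2 ^ 3 := Nat.pow_le_pow_left (by omega) 3
      omega
    have h2 : x ≤ 6 := by
      by_contra hcon
      push Not at hcon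
      have h3 : (6 : ℝ) ^ 3 < x ^ 3 := by gcongr
      rw [hx3] at h3
      have h4 : (p : ℝ) < 127 := by exact_mod_cast h1
      norm_num at h3
      linarith
    have h3 : (Z.card : ℝ) ≤ p := by exact_mod_cast hZp
    calc (Z.card : ℝ) ≤ x ^ 3 := by rw [hx3]; exact h3
      _ = x * x ^ 2 := by ring
      _ ≤ 6 * x ^ 2 := by gcongr
      _ ≤ 132 * x ^ 2 := by gcongr; norm_num
  · push Not at hbs
    have hhalf : (p - 1) / 2 = p / 2 := by omega
    -- classes
    set S : ZMod p → ZMod p → Finset (ZMod p) := fun s1 s2 =>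
      Z.filter (fun t => (del n ^ ((p - 1) / 2)).eval t = s1 ∧
        (delh n h ^ ((p - 1) / 2)).eval t = s2 ∧ (del n * delh n h).eval t ≠ 0) with hSdef
    set B : Finset (ZMod p) := Z.filter (fun t => (del n * delh n h).eval t = 0) with hB
    have hcl : ∀ s1 s2, b * (S s1 s2).card ≤ 8 * p := by
      intro s1 s2
      refine class_card hNV hLIN p hp2 n h D hn hh hdeg hD b hbs hb1 s1 s2 _ ?_
      intro t ht
      rw [hSdef, Finset.mem_filter, hZ, Finset.mem_filter] at ht
      exact ⟨ht.1.2, ht.2⟩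
    have hBc : B.card ≤ 4 := by
      refine bad_card p n h B ?_
      intro t ht
      exact (Finset.mem_filter.mp ht).2
    have hsub : Z ⊆ B ∪ ((S 1 1 ∪ S 1 (-1)) ∪ (S (-1) 1 ∪ S (-1) (-1))) := by
      intro t ht
      by_cases h0 : (del n * delh n h).eval t = 0
      · exact Finset.mem_union_left _ (Finset.mem_filter.mpr ⟨ht, h0⟩)
      · refine Finset.mem_union_right _ ?_
        have h1 : (del n).eval t ≠ 0 := by
          intro h; apply h0; rw [eval_mul, h, zero_mul]
        have h2 : (delh n h).eval t ≠ 0 := by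
          intro h; apply h0; rw [eval_mul, h, mul_zero]
        have h3 := ZMod.pow_div_two_eq_neg_one_or_one p h1
        have h4 := ZMod.pow_div_two_eq_neg_one_or_one p h2
        simp only [hSdef, Finset.mem_union, Finset.mem_filter, eval_pow, hhalf]
        tauto
    have hcardN : Z.card ≤ 4 + (((S 1 1).card + (S 1 (-1)).card)
        + ((S (-1) 1).card + (S (-1) (-1)).card)) := by
      refine (Finset.card_le_card hsub).trans ?_
      refine (Finset.card_union_le _ _).trans ?_
      refine add_le_add hBc ?_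
      refine (Finset.card_union_le _ _).trans ?_
      exact add_le_add (Finset.card_union_le _ _) (Finset.card_union_le _ _)
    have hbR : (0 : ℝ) < b := by exact_mod_cast (by omega : 0 < b)
    have hxb : x ≤ 4 * b := by
      by_contra hcon
      push Not at hcon
      have h1 : ((4 : ℝ) * b) ^ 3 < x ^ 3 := by gcongr
      rw [hx3] at h1
      have h2 : (p : ℝ) + 1 < 16 * ((b : ℝ) + 1) ^ 3 := by exact_mod_cast hb2
      have h3 : (2 : ℝ) ≤ b := by exact_mod_cast hbs
      have h4 : (b : ℝ) + 1 ≤ 3 / 2 * b := by linarith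
      have h5 : ((b : ℝ) + 1) ^ 3 ≤ (3 / 2 * b) ^ 3 := by gcongr
      have h6 : (0 : ℝ) < (b : ℝ) ^ 3 := by positivity
      nlinarith
    have hclR : ∀ s1 s2, ((S s1 s2).card : ℝ) ≤ 32 * x ^ 2 := by
      intro s1 s2
      have h1 : (b : ℝ) * (S s1 s2).card ≤ 8 * p := by exact_mod_cast hcl s1 s2
      have h2 : (b : ℝ) * (S s1 s2).card ≤ b * (32 * x ^ 2) := by
        calc (b : ℝ) * (S s1 s2).card ≤ 8 * p := h1
          _ = 8 * (x * x ^ 2) := by rw [← hx3]; ring
          _ ≤ 8 * ((4 * b) * x ^ 2) := by gcongr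
          _ = b * (32 * x ^ 2) := by ring
      exact le_of_mul_le_mul_left h2 hbR
    have hcardR : (Z.card : ℝ) ≤ 4 + ((((S 1 1).card : ℝ) + (S 1 (-1)).card)
        + ((S (-1) 1).card + (S (-1) (-1)).card)) := by exact_mod_cast hcardN
    have hx21 : 1 ≤ x ^ 2 := one_le_pow₀ hx1
    have e1 := hclR 1 1
    have e2 := hclR 1 (-1)
    have e3 := hclR (-1) 1
    have e4 := hclR (-1) (-1)
    linarith

end Pool.Agent.Helper63.WP
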